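import Mathlib
import Pool.Agent.Y242.IM.Stm
import Pool.Agent.Helper469.Univalent

/-!
# The circle means of `1/f'` converge (MP_6f6574_an, `S_B` from `S_A`)

For a holomorphic zero-free `g` on the disc the circle means of `|g|` are nondecreasing: with the
unimodular function `h θ = conj (g (r e^{iθ})) / |g (r e^{iθ})|` the function
`Φ ζ = ∫ g (ζ e^{iθ}) h θ dθ` is holomorphic, `Φ r` is the mean of radius `r` and `|Φ ζ|` is at most
the mean of radius `|ζ|`, so that the maximum principle gives the claim. They are bounded by `S_A`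
and the open mapping property at `0`.
-/

set_option autoImplicit false

open Set Filter Topology Complex Metric MeasureTheory

noncomputable section

namespace Pool.Agent.Y500.IM

/-- the circle mean of `|g|`, without the factor `1 / (2 π)` -/
def cm (g : ℂ → ℂ) (ζ : ℂ) : ℝ := ∫ θ in (0 : ℝ)..(2 * Real.pi), ‖g (ζ * exp (θ * I))‖

theorem norm_exp (θ : ℝ) : ‖exp ((θ : ℂ) * I)‖ = 1 := Complex.norm_exp_ofReal_mul_I θ

theorem memb {ζ : ℂ} (hζ : ζ ∈ ball (0 : ℂ) 1) (θ : ℝ) : ζ * exp (θ * I) ∈ ball (0 : ℂ) 1 := by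
  rw [mem_ball_zero_iff] at hζ ⊢
  rw [norm_mul, norm_exp, mul_one]
  exact hζ

theorem cont_comp {g : ℂ → ℂ} (hg : ContinuousOn g (ball 0 1)) {ζ : ℂ}
    (hζ : ζ ∈ ball (0 : ℂ) 1) : Continuous (fun θ : ℝ => g (ζ * exp (θ * I))) := by
  refine hg.comp_continuous ?_ (fun θ => memb hζ θ)
  fun_prop

/-- rotation invariance of the circle means -/
theorem cm_rot {g : ℂ → ℂ} {r : ℝ} {ζ : ℂ} (hζ : ‖ζ‖ = r) : cm g ζ = cm g (r : ℂ) := by
  unfold cm
  have hpol : ζ = r * exp ((arg ζ : ℂ) * I) := by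
    rw [← hζ]
    exact (Complex.norm_mul_exp_arg_mul_I ζ).symm
  set F : ℝ → ℝ := fun θ => ‖g ((r : ℂ) * exp (θ * I))‖ with hF
  have hper : Function.Periodic F (2 * Real.pi) := by
    intro θ
    simp only [hF]
    congr 3
    push_cast
    rw [add_mul, Complex.exp_add]
    have : exp (2 * (Real.pi : ℂ) * I) = 1 := Complex.exp_two_pi_mul_I
    rw [this, mul_one]
  have h1 : (fun θ : ℝ => ‖g (ζ * exp (θ * I))‖) = fun θ => F (θ + arg ζ) := by
    funext θ
    simp only [hF]
    congr 2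
    rw [hpol]
    push_cast
    rw [add_mul, Complex.exp_add]
    have h2 : arg ((r : ℂ) * exp ((arg ζ : ℂ) * I)) = arg ζ := by rw [← hpol]
    rw [h2]
    ring
  rw [h1, intervalIntegral.integral_comp_add_right, zero_add]
  have h3 := hper.intervalIntegral_add_eq (arg ζ) 0
  rw [zero_add] at h3
  rw [add_comm (2 * Real.pi) (arg ζ)]
  exact h3

/-- the monotonicity of the circle means of a zero-free holomorphic function -/
theorem cm_mono {g : ℂ → ℂ} (hg : DifferentiableOn ℂ g (ball 0 1))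
    (hg0 : ∀ z ∈ ball (0 : ℂ) 1, g z ≠ 0) {r s : ℝ} (hr : 0 < r) (hrs : r < s) (hs : s < 1) :
    cm g (r : ℂ) ≤ cm g (s : ℂ) := by
  have hgc : ContinuousOn g (ball 0 1) := hg.continuousOn
  have hrb : (r : ℂ) ∈ ball (0 : ℂ) 1 := by
    rw [mem_ball_zero_iff, Complex.norm_real, Real.norm_of_nonneg hr.le]
    linarith
  set h : ℝ → ℂ := fun θ => (starRingEnd ℂ) (g (r * exp (θ * I))) / ‖g (r * exp (θ * I))‖ with hh
  have hgr : ∀ θ : ℝ, ‖g (r * exp (θ * I))‖ ≠ 0 := fun θ => norm_ne_zero_iff.2 (hg0 _ (memb hrb θ))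
  have hhc : Continuous h := by
    have h1 := cont_comp hgc hrb
    refine (Complex.continuous_conj.comp h1).div₀ ?_ ?_
    · exact Complex.continuous_ofReal.comp h1.norm
    · intro θ
      exact_mod_cast hgr θ
  have hh1 : ∀ θ, ‖h θ‖ = 1 := by
    intro θ
    simp only [hh]
    rw [norm_div, RCLike.norm_conj, Complex.norm_real, norm_norm, div_self (hgr θ)]
  set Φ : ℂ → ℂ := fun ζ => ∫ θ in (0 : ℝ)..(2 * Real.pi), g (ζ * exp (θ * I)) * h θ with hΦ
  have hpi : (0 : ℝ) ≤ 2 * Real.pi := by positivity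
  have hbd : ∀ ζ ∈ ball (0 : ℂ) 1, ‖Φ ζ‖ ≤ cm g ζ := by
    intro ζ hζ
    simp only [hΦ]
    refine (intervalIntegral.norm_integral_le_integral_norm hpi).trans (le_of_eq ?_)
    unfold cm
    congr 1
    funext θ
    rw [norm_mul, hh1, mul_one]
  have hval : Φ (r : ℂ) = (cm g (r : ℂ) : ℝ) := by
    simp only [hΦ]
    unfold cm
    rw [← intervalIntegral.integral_ofReal]
    congr 1
    funext θ
    simp only [hh]
    rw [mul_div_assoc', Complex.mul_conj, Complex.normSq_eq_norm_sq]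
    have : ((‖g (r * exp (θ * I))‖ : ℝ) : ℂ) ≠ 0 := by exact_mod_cast hgr θ
    push_cast
    field_simp
  -- holomorphy
  have hdiff : DifferentiableOn ℂ Φ (ball 0 1) := by
    intro ζ hζ
    refine DifferentiableAt.differentiableWithinAt ?_
    rw [mem_ball_zero_iff] at hζ
    obtain ⟨t, ht1, ht2⟩ := exists_between hζ
    have hcl : closedBall (0 : ℂ) t ⊆ ball 0 1 := closedBall_subset_ball ht2
    have hdc : ContinuousOn (deriv g) (ball 0 1) := (hg.deriv isOpen_ball).continuousOn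
    obtain ⟨C, hC⟩ := (isCompact_closedBall (0 : ℂ) t).exists_bound_of_continuousOn
      (hdc.mono hcl)
    have hopen : ball (0 : ℂ) t ∈ 𝓝 ζ := isOpen_ball.mem_nhds (by rwa [mem_ball_zero_iff])
    have hsub : ∀ x ∈ ball (0 : ℂ) t, x ∈ ball (0 : ℂ) 1 := fun x hx =>
      hcl (ball_subset_closedBall hx)
    have hmem : ∀ x ∈ ball (0 : ℂ) t, ∀ θ : ℝ, x * exp (θ * I) ∈ closedBall (0 : ℂ) t := by
      intro x hx θ
      rw [mem_ball_zero_iff] at hx
      rw [mem_closedBall_zero_iff, norm_mul, norm_exp, mul_one]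
      exact hx.le
    have key := intervalIntegral.hasDerivAt_integral_of_dominated_loc_of_deriv_le
      (μ := volume) (a := 0) (b := 2 * Real.pi)
      (F := fun (x : ℂ) (θ : ℝ) => g (x * exp (θ * I)) * h θ)
      (F' := fun (x : ℂ) (θ : ℝ) => deriv g (x * exp (θ * I)) * exp (θ * I) * h θ)
      (x₀ := ζ) (s := ball (0 : ℂ) t) (bound := fun _ => C) hopen ?_ ?_ ?_ ?_ ?_ ?_
    · exact key.2.differentiableAt
    · filter_upwards [hopen] with x hx
      exact ((cont_comp hgc (hsub x hx)).mul hhc).aestronglyMeasurable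
    · exact ((cont_comp hgc (by rwa [mem_ball_zero_iff])).mul hhc).intervalIntegrable _ _
    · refine (((cont_comp hdc (by rwa [mem_ball_zero_iff])).mul ?_).mul hhc).aestronglyMeasurable
      fun_prop
    · refine Filter.Eventually.of_forall (fun θ _ x hx => ?_)
      rw [norm_mul, norm_mul, norm_exp, hh1, mul_one, mul_one]
      exact hC _ (hmem x hx θ)
    · exact intervalIntegrable_const
    · refine Filter.Eventually.of_forall (fun θ _ x hx => ?_)
      have h1 : HasDerivAt g (deriv g (x * exp (θ * I))) (x * exp (θ * I)) :=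
        (hg.differentiableAt (isOpen_ball.mem_nhds (hcl (hmem x hx θ)))).hasDerivAt
      have h2 : HasDerivAt (fun x : ℂ => x * exp (θ * I)) (exp (θ * I)) x := by
        simpa using (hasDerivAt_id x).mul_const (exp (θ * I))
      exact (h1.comp x h2).mul_const (h θ)
  have hcl : closedBall (0 : ℂ) s ⊆ ball 0 1 := closedBall_subset_ball hs
  have hs0 : s ≠ 0 := (hr.trans hrs).ne'
  have hdc : DiffContOnCl ℂ Φ (ball 0 s) := by
    refine DifferentiableOn.diffContOnCl ?_
    rw [closure_ball _ hs0]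
    exact hdiff.mono hcl
  have hmax := Complex.norm_le_of_forall_mem_frontier_norm_le (f := Φ) (U := ball (0 : ℂ) s)
    (C := cm g (s : ℂ)) isBounded_ball hdc ?_ (z := (r : ℂ)) ?_
  · rw [hval, Complex.norm_real] at hmax
    exact (le_abs_self _).trans hmax
  · intro z hz
    rw [frontier_ball _ hs0, mem_sphere_zero_iff_norm] at hz
    rw [← cm_rot (g := g) hz]
    refine hbd z ?_
    rw [mem_ball_zero_iff, hz]
    exact hs
  · apply subset_closure
    rw [mem_ball_zero_iff, Complex.norm_real, Real.norm_of_nonneg hr.le]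
    exact hrs

open Y242.IM

/-- **B** -/
theorem t (hA : S_A) : S_B := by
  intro f hf
  obtain ⟨hfd, hinj, hf0, hf1, -⟩ := id hf
  have hne : ∀ z ∈ ball (0 : ℂ) 1, deriv f z ≠ 0 := fun z hz =>
    Pool.Agent.Helper469.Univalent.deriv_ne_zero_of_injOn isOpen_ball hfd hinj hz
  set g : ℂ → ℂ := fun z => (deriv f z)⁻¹ with hg
  have hgd : DifferentiableOn ℂ g (ball 0 1) := by
    intro z hz
    exact ((hfd.deriv isOpen_ball) z hz).inv (hne z hz)
  have hg0 : ∀ z ∈ ball (0 : ℂ) 1, g z ≠ 0 := fun z hz => inv_ne_zero (hne z hz)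
  have hmean : ∀ r : ℝ, mean f r = (2 * Real.pi)⁻¹ * cm g (r : ℂ) := fun r => rfl
  have hmono : MonotoneOn (mean f) (Ioo 0 1) := by
    intro r hr s hs hrs
    rcases hrs.eq_or_lt with h | h
    · rw [h]
    · rw [hmean, hmean]
      exact mul_le_mul_of_nonneg_left (cm_mono hgd hg0 hr.1 h hs.2) (by positivity)
  -- a lower bound of `|f|` away from `0`
  obtain ⟨d, hd, hdf⟩ : ∃ d : ℝ, 0 < d ∧ ∀ z ∈ ball (0 : ℂ) 1, 1 / 2 ≤ ‖z‖ → d ≤ ‖f z‖ := by
    have h0 : (0 : ℂ) ∈ ball (0 : ℂ) 1 := mem_ball_self one_pos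
    have hfa : AnalyticAt ℂ f 0 := hfd.analyticAt (isOpen_ball.mem_nhds h0)
    have hst : HasStrictDerivAt f (deriv f 0) 0 := hfa.hasStrictDerivAt
    have hmap := hst.map_nhds_eq (by rw [hf1]; exact one_ne_zero)
    rw [hf0] at hmap
    have hb : f '' ball (0 : ℂ) (1 / 2) ∈ 𝓝 (0 : ℂ) := by
      rw [← hmap]
      exact image_mem_map (ball_mem_nhds _ (by norm_num))
    obtain ⟨d, hd, hdb⟩ := Metric.mem_nhds_iff.1 hb
    refine ⟨d, hd, fun z hz hz2 => ?_⟩
    by_contra hlt
    push Not at hlt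
    obtain ⟨w, hw, hwz⟩ := hdb (show f z ∈ ball (0 : ℂ) d by rwa [mem_ball_zero_iff])
    have hw1 : w ∈ ball (0 : ℂ) 1 := ball_subset_ball (by norm_num) hw
    have := hinj hw1 hz hwz
    rw [this, mem_ball_zero_iff] at hw
    linarith
  have hbdd : BddAbove (mean f '' Ioo 0 1) := by
    refine ⟨1 / d, ?_⟩
    rintro x ⟨r, hr, rfl⟩
    obtain ⟨s, hs1, hs2⟩ : ∃ s : ℝ, max r (1 / 2) < s ∧ s < 1 :=
      exists_between (max_lt hr.2 (by norm_num))
    have hsr : r < s := (le_max_left _ _).trans_lt hs1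
    have hs12 : 1 / 2 < s := (le_max_right _ _).trans_lt hs1
    have hs0 : 0 < s := by linarith
    refine (hmono hr ⟨hs0, hs2⟩ hsr.le).trans ?_
    refine (hA f hf s hs0 hs2 d hd (fun z hz => hdf z ?_ ?_)).trans ?_
    · rw [mem_ball_zero_iff, hz]
      exact hs2
    · rw [hz]
      exact hs12.le
    · exact div_le_div_of_nonneg_right hs2.le hd.le
  exact ⟨_, MonotoneOn.tendsto_nhdsWithin_Ioo_left (nonempty_Ioo.2 one_pos) hmono hbdd⟩

end Pool.Agent.Y500.IM

end
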